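import Pool.Agent.Run7.h341.CTF.Base

/-!
# `CT_P(ℤ)` is finitely presented: extension of flat connections (piece EXT of helper341's project)
-/

set_option autoImplicit false

noncomputable section

open scoped Classical

namespace Pool.Agent.Run7.h228.CTF

open Equiv Pool.Agent.Run7.h341.CTF

variable {S : Finset ℕ}

/-- an abstract cocycle on a graph in which any four vertices have a common neighbour is a
coboundary -/
theorem cocycle {X H : Type} [Group H] (D : X → X → Prop) (hD : ∀ x y, D x y → D y x)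
    (ψ : X → X → H) (h1 : ∀ x y, D x y → ψ x y * ψ y x = 1)
    (h2 : ∀ x y z, D x y → D y z → D x z → ψ x y * ψ y z = ψ x z)
    (h4 : ∀ x y z t : X, ∃ k, D k x ∧ D k y ∧ D k z ∧ D k t) :
    ∃ θ : X → H, ∀ x y, D x y → θ x * (θ y)⁻¹ = ψ x y := by
  rcases isEmpty_or_nonempty X with hX | ⟨⟨o⟩⟩
  · exact ⟨fun _ => 1, fun x => (hX.false x).elim⟩
  choose k hk using fun x : X => h4 x o x o
  have key : ∀ x a b : X, D a x → D a o → D b x → D b o → ψ x a * ψ a o = ψ x b * ψ b o := by
    intro x a b hax hao hbx hbo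
    obtain ⟨c, hcx, hco, hca, hcb⟩ := h4 x o a b
    have e : ∀ a : X, D a x → D a o → D c a → ψ x a * ψ a o = ψ x c * ψ c o := by
      intro a hax hao hca
      rw [← h2 x c a (hD _ _ hcx) hca (hD _ _ hax), ← h2 a c o (hD _ _ hca) hco hao]
      have := h1 c a hca
      calc ψ x c * ψ c a * (ψ a c * ψ c o) = ψ x c * (ψ c a * ψ a c) * ψ c o := by group
        _ = ψ x c * ψ c o := by rw [this, mul_one]
    rw [e a hax hao hca, e b hbx hbo hcb]
  refine ⟨fun x => ψ x (k x) * ψ (k x) o, fun x y hxy => ?_⟩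
  obtain ⟨c, hcx, hco, hcy, -⟩ := h4 x o y y
  show ψ x (k x) * ψ (k x) o * (ψ y (k y) * ψ (k y) o)⁻¹ = ψ x y
  rw [key x (k x) c (hk x).1 (hk x).2.1 hcx hco, key y (k y) c (hk y).1 (hk y).2.1 hcy hco]
  have e1 : (ψ y c)⁻¹ = ψ c y := by
    rw [inv_eq_iff_mul_eq_one]
    exact h1 y c (hD _ _ hcy)
  rw [← h2 x c y (hD _ _ hcx) hcy hxy, ← e1]
  group

/-- the largest element of `S` -/
def mx (S : Finset ℕ) : ℕ := S.sup id

theorem le_mx {p : ℕ} (hp : p ∈ S) : p ≤ mx S := Finset.le_sup (f := id) hp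

theorem two_le (hS : PS S) {p : ℕ} (hp : p ∈ S) : 2 ≤ p := (hS.prime p hp).two_le

/-- the values of a flat connection on the merges of a frame of the next rank -/
theorem exists_theta (hS : PS S) {H : Type} [Group H] {φ : V → V → H} {n : ℕ}
    (hn : 4 * mx S + 1 ≤ n) (hsq : SqFlat S φ n) {w : V} (hw : Frame S w) (hc : w.card = n + 1) :
    ∃ θ : V → H, ∀ (f : ℤ → ℤ) (p : ℕ) (g : ℤ → ℤ) (q : ℕ), PC S f → p ∈ S → ch f p ⊆ w →
      PC S g → q ∈ S → ch g q ⊆ w → Disjoint (ch f p) (ch g q) →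
      φ (mrg (mrg w f p) g q) (mrg w f p) * θ (mrg w f p) =
        φ (mrg (mrg w f p) g q) (mrg w g q) * θ (mrg w g q) := by
  let X : Type := {x : (ℤ → ℤ) × ℕ // PC S x.1 ∧ x.2 ∈ S ∧ ch x.1 x.2 ⊆ w}
  let D : X → X → Prop := fun x y => Disjoint (ch x.1.1 x.1.2) (ch y.1.1 y.1.2)
  let m1 : X → V := fun x => mrg w x.1.1 x.1.2
  let m2 : X → X → V := fun x y => mrg (mrg w x.1.1 x.1.2) y.1.1 y.1.2
  have hm2 : ∀ x y : X, D x y → m2 x y = m2 y x := fun x y h =>
    mrg_comm hS hw x.2.1 y.2.1 x.2.2.1 y.2.2.1 x.2.2.2 y.2.2.2 h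
  let ψ : X → X → H := fun x y => (φ (m2 x y) (m1 x))⁻¹ * φ (m2 x y) (m1 y)
  have hD : ∀ x y, D x y → D y x := fun x y h => Disjoint.symm h
  have h1 : ∀ x y, D x y → ψ x y * ψ y x = 1 := by
    intro x y h
    show (φ (m2 x y) (m1 x))⁻¹ * φ (m2 x y) (m1 y) *
      ((φ (m2 y x) (m1 y))⁻¹ * φ (m2 y x) (m1 x)) = 1
    rw [hm2 x y h]
    group
  have hcard1 : ∀ x : X, (m1 x).card ≤ n := by
    intro x
    have := card_mrg hS hw x.2.1 x.2.2.1 x.2.2.2
    have h2 := two_le hS x.2.2.1
    show (mrg w x.1.1 x.1.2).card ≤ n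
    omega
  have h2 : ∀ x y z, D x y → D y z → D x z → ψ x y * ψ y z = ψ x z := by
    intro x y z hxy hyz hxz
    -- the bottom
    let u : X → X → X → V := fun x y z => mrg (m2 x y) z.1.1 z.1.2
    have sub2 : ∀ x y z : X, D x z → D y z → ch z.1.1 z.1.2 ⊆ m2 x y := fun x y z hxz hyz =>
      ch_sub_mrg (ch_sub_mrg z.2.2.2 hxz) hyz
    have sub1 : ∀ x y : X, D x y → ch y.1.1 y.1.2 ⊆ m1 x := fun x y h => ch_sub_mrg y.2.2.2 h
    have fr1 : ∀ x : X, Frame S (m1 x) := fun x => frame_mrg hS hw x.2.1 x.2.2.1 x.2.2.2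
    have u12 : ∀ x y z : X, D x y → u x y z = u y x z := by
      intro x y z h
      show mrg (m2 x y) z.1.1 z.1.2 = mrg (m2 y x) z.1.1 z.1.2
      rw [hm2 x y h]
    have u23 : ∀ x y z : X, D x y → D x z → D y z → u x y z = u x z y := by
      intro x y z hxy hxz hyz
      exact mrg_comm hS (fr1 x) y.2.1 z.2.1 y.2.2.1 z.2.2.1 (sub1 x y hxy) (sub1 x z hxz) hyz
    have sq : ∀ x y z : X, D x y → D x z → D y z →
        φ (u x y z) (m2 x y) * φ (m2 x y) (m1 x) = φ (u x y z) (m2 x z) * φ (m2 x z) (m1 x) := by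
      intro x y z hxy hxz hyz
      exact hsq (m1 x) (fr1 x) (hcard1 x) y.1.1 y.1.2 z.1.1 z.1.2 y.2.1 y.2.2.1 (sub1 x y hxy)
        z.2.1 z.2.2.1 (sub1 x z hxz) hyz
    -- the three squares
    have e1 := sq x y z hxy hxz hyz
    have e2 := sq y x z (hD _ _ hxy) hyz hxz
    have e3 := sq z x y (hD _ _ hxz) (hD _ _ hyz) hxy
    have u2 : u y x z = u x y z := (u12 x y z hxy).symm
    have u3 : u z x y = u x y z := by
      rw [u12 z x y (hD _ _ hxz), u23 x z y hxz hxy (hD _ _ hyz)]
    rw [u2, hm2 y x (hD _ _ hxy)] at e2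
    rw [u3, hm2 z x (hD _ _ hxz), hm2 z y (hD _ _ hyz)] at e3
    show (φ (m2 x y) (m1 x))⁻¹ * φ (m2 x y) (m1 y) * ((φ (m2 y z) (m1 y))⁻¹ * φ (m2 y z) (m1 z)) =
      (φ (m2 x z) (m1 x))⁻¹ * φ (m2 x z) (m1 z)
    generalize φ (m2 x y) (m1 x) = a at *
    generalize φ (m2 x y) (m1 y) = b at *
    generalize φ (m2 y z) (m1 y) = c at *
    generalize φ (m2 y z) (m1 z) = d at *
    generalize φ (m2 x z) (m1 x) = e at *
    generalize φ (m2 x z) (m1 z) = f at *
    generalize φ (u x y z) (m2 x y) = A at *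
    generalize φ (u x y z) (m2 x z) = B at *
    generalize φ (u x y z) (m2 y z) = C at *
    -- e1 : A * a = B * e, e2 : A * b = C * c, e3 : B * f = C * d
    have f1 : a = A⁻¹ * (B * e) := by rw [← e1]; group
    have f2 : b = A⁻¹ * (C * c) := by rw [← e2]; group
    have f3 : f = B⁻¹ * (C * d) := by rw [← e3]; group
    rw [f1, f2, f3]
    group
  have hpos : ∀ x : X, (ch x.1.1 x.1.2).card ≤ mx S := fun x => by
    rw [card_ch x.2.1.inj]
    exact le_mx x.2.2.1
  have h4 : ∀ x y z t : X, ∃ k, D k x ∧ D k y ∧ D k z ∧ D k t := by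
    intro x y z t
    set U : V := ch x.1.1 x.1.2 ∪ ch y.1.1 y.1.2 ∪ ch z.1.1 z.1.2 ∪ ch t.1.1 t.1.2 with hU
    have hUc : U.card ≤ 4 * mx S := by
      have a1 := Finset.card_union_le (ch x.1.1 x.1.2 ∪ ch y.1.1 y.1.2 ∪ ch z.1.1 z.1.2)
        (ch t.1.1 t.1.2)
      have a2 := Finset.card_union_le (ch x.1.1 x.1.2 ∪ ch y.1.1 y.1.2) (ch z.1.1 z.1.2)
      have a3 := Finset.card_union_le (ch x.1.1 x.1.2) (ch y.1.1 y.1.2)
      have b1 := hpos x
      have b2 := hpos y
      have b3 := hpos z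
      have b4 := hpos t
      rw [← hU] at a1
      omega
    have hlt : 1 < (w \ U).card := by
      have := Finset.le_card_sdiff U w
      omega
    obtain ⟨a, ha, b, hb, hab⟩ := Finset.one_lt_card.mp hlt
    rw [Finset.mem_sdiff] at ha hb
    obtain ⟨m, hm, hmc⟩ := exists_merge hS hw ha.1 hb.1 hab
    have hsub : ch m 2 ⊆ w := by
      rw [hmc]
      intro c hc
      rw [Finset.mem_insert, Finset.mem_singleton] at hc
      rcases hc with rfl | rfl
      exacts [ha.1, hb.1]
    have hdis : ∀ T : V, T ⊆ U → Disjoint (ch m 2) T := by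
      intro T hT
      rw [hmc, Finset.disjoint_left]
      intro c hc hcT
      rw [Finset.mem_insert, Finset.mem_singleton] at hc
      rcases hc with rfl | rfl
      exacts [ha.2 (hT hcT), hb.2 (hT hcT)]
    refine ⟨⟨(m, 2), hm, hS.two, hsub⟩, hdis _ ?_, hdis _ ?_, hdis _ ?_, hdis _ ?_⟩
    · intro c hc
      rw [hU]; simp only [Finset.mem_union]; tauto
    · intro c hc
      rw [hU]; simp only [Finset.mem_union]; tauto
    · intro c hc
      rw [hU]; simp only [Finset.mem_union]; tauto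
    · intro c hc
      rw [hU]; simp only [Finset.mem_union]; tauto
  obtain ⟨θ, hθ⟩ := cocycle D hD ψ h1 h2 h4
  -- as a function of the bottom
  have huniq : ∀ x y : X, m1 x = m1 y → x = y := by
    intro x y h
    have := mrg_unique hS hw x.2.1 y.2.1 x.2.2.1 y.2.2.1 x.2.2.2 y.2.2.2 h
    exact Subtype.ext (Prod.ext this.1 this.2)
  refine ⟨fun v => if h : ∃ x : X, m1 x = v then θ h.choose else 1, ?_⟩
  have hval : ∀ x : X, (fun v => if h : ∃ x : X, m1 x = v then θ h.choose else (1 : H)) (m1 x) =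
      θ x := by
    intro x
    have hx : ∃ y : X, m1 y = m1 x := ⟨x, rfl⟩
    show (if h : ∃ y : X, m1 y = m1 x then θ h.choose else 1) = θ x
    rw [dif_pos hx]
    congr 1
    exact huniq _ _ hx.choose_spec
  intro f p g q hf hp hfw hg hq hgw hd
  have e1 := hval ⟨(f, p), hf, hp, hfw⟩
  have e2 := hval ⟨(g, q), hg, hq, hgw⟩
  have e3 := hθ ⟨(f, p), hf, hp, hfw⟩ ⟨(g, q), hg, hq, hgw⟩ hd
  show φ (mrg (mrg w f p) g q) (mrg w f p) * _ = φ (mrg (mrg w f p) g q) (mrg w g q) * _
  have e1' : (fun v => if h : ∃ x : X, m1 x = v then θ h.choose else (1 : H)) (mrg w f p) =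
      θ ⟨(f, p), hf, hp, hfw⟩ := e1
  have e2' : (fun v => if h : ∃ x : X, m1 x = v then θ h.choose else (1 : H)) (mrg w g q) =
      θ ⟨(g, q), hg, hq, hgw⟩ := e2
  rw [e1', e2']
  have e3' : θ ⟨(f, p), hf, hp, hfw⟩ * (θ ⟨(g, q), hg, hq, hgw⟩)⁻¹ =
      (φ (mrg (mrg w f p) g q) (mrg w f p))⁻¹ * φ (mrg (mrg w f p) g q) (mrg w g q) := e3
  have e4 : θ ⟨(f, p), hf, hp, hfw⟩ = (φ (mrg (mrg w f p) g q) (mrg w f p))⁻¹ *
      φ (mrg (mrg w f p) g q) (mrg w g q) * θ ⟨(g, q), hg, hq, hgw⟩ := by
    rw [← e3']; group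
  rw [e4]
  group

/-! ### agreement up to some rank -/

/-- agreement on the pairs with top of rank at most `n` -/
def Agree {H : Type} (φ' φ : V → V → H) (n : ℕ) : Prop :=
  ∀ v w : V, w.card ≤ n → φ' v w = φ v w

theorem runH_congr (hS : PS S) {H : Type} [Group H] {φ' φ : V → V → H} {n : ℕ}
    (h : Agree φ' φ n) {q : ℕ} (hq : q ∈ S) : ∀ (l : List (ℤ → ℤ)) (v : V), Frame S v → l.Nodup →
      (∀ a ∈ l, a ∈ v) → v.card + q * l.length ≤ n + l.length →
      runH φ' q v l = runH φ q v l := by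
  intro l
  induction l with
  | nil => intro v _ _ _ _; rfl
  | cons a l ih =>
    intro v hv hl hlv hn
    have hav : a ∈ v := hlv a List.mem_cons_self
    have hc := card_split hS hv hav hq
    have hq2 := two_le hS hq
    rw [List.nodup_cons] at hl
    have hlen : (a :: l).length = l.length + 1 := rfl
    rw [hlen] at hn
    have hql : l.length ≤ q * l.length := Nat.le_mul_of_pos_left _ (by omega)
    have e1 : φ' v (split v a q) = φ v (split v a q) := by
      apply h
      rw [Nat.mul_add] at hn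
      omega
    have e2 : runH φ' q (split v a q) l = runH φ q (split v a q) l := by
      apply ih (split v a q) (frame_split hS hv hav hq) hl.2
      · intro b hb
        apply mem_split_of_ne (hlv b (List.mem_cons_of_mem _ hb))
        rintro rfl
        exact hl.1 hb
      · rw [Nat.mul_add] at hn
        omega
    show φ' v (split v a q) * runH φ' q (split v a q) l =
      φ v (split v a q) * runH φ q (split v a q) l
    rw [e1, e2]

theorem sq_congr (hS : PS S) {H : Type} [Group H] {φ' φ : V → V → H} {n : ℕ}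
    (h : Agree φ' φ n) (hsq : SqFlat S φ n) : SqFlat S φ' n := by
  intro w hw hn f p g q hf hp hfw hg hq hgw hd
  have c1 := card_mrg hS hw hf hp hfw
  have c2 := card_mrg hS hw hg hq hgw
  have p2 := two_le hS hp
  have q2 := two_le hS hq
  rw [h _ (mrg w f p) (by omega), h _ w hn, h _ (mrg w g q) (by omega), h _ w hn]
  exact hsq w hw hn f p g q hf hp hfw hg hq hgw hd

theorem length_chl (f : ℤ → ℤ) (p : ℕ) : (chl f p).length = p := by
  simp [chl]

theorem di_side (hS : PS S) {H : Type} [Group H] {φ' φ : V → V → H} {n : ℕ}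
    (h : Agree φ' φ n) {v : V} (hv : Frame S v) {f : ℤ → ℤ} (hf : f ∈ v) {p q : ℕ} (hp : p ∈ S)
    (hq : q ∈ S) (hn : v.card + p * q ≤ n + 1) :
    φ' v (split v f p) * runH φ' q (split v f p) (chl f p) =
      φ v (split v f p) * runH φ q (split v f p) (chl f p) := by
  have hc := card_split hS hv hf hp
  have hp2 := two_le hS hp
  have hq2 := two_le hS hq
  have hpq : p ≤ p * q := Nat.le_mul_of_pos_right _ (by omega)
  rw [h v (split v f p) (by omega)]
  congr 1
  apply runH_congr hS h hq _ _ (frame_split hS hv hf hp) (nodup_chl (hv.pc f hf).inj p)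
  · intro a ha
    exact ch_sub_split (mem_chl.mp ha)
  · rw [length_chl, Nat.mul_comm q p]
    omega

theorem di_congr (hS : PS S) {H : Type} [Group H] {φ' φ : V → V → H} {n : ℕ}
    (h : Agree φ' φ n) (hdi : DiFlat S φ n) : DiFlat S φ' n := by
  intro v f p q hv hf hp hq hpq hn
  rw [di_side hS h hv hf hp hq hn, di_side hS h hv hf hq hp (by rw [Nat.mul_comm q p]; exact hn)]
  exact hdi v f p q hv hf hp hq hpq hn

/-- a run commutes with a split of another element -/
theorem runH_comm (hS : PS S) {H : Type} [Group H] {φ : V → V → H} {n : ℕ}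
    (hsq : SqFlat S φ n) {m : ℤ → ℤ} {r q : ℕ} (hr : r ∈ S) (hq : q ∈ S) :
    ∀ (l : List (ℤ → ℤ)) (u : V), Frame S u → m ∈ u → l.Nodup → (∀ a ∈ l, a ∈ u) → m ∉ l →
      u.card + r + q * l.length ≤ n + 1 + l.length →
      runV q (split u m r) l = split (runV q u l) m r ∧
      φ u (split u m r) * runH φ q (split u m r) l =
        runH φ q u l * φ (runV q u l) (split (runV q u l) m r) := by
  intro l
  induction l with
  | nil =>
    intro u _ _ _ _ _ _
    refine ⟨rfl, ?_⟩
    show φ u (split u m r) * 1 = 1 * φ u (split u m r)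
    rw [mul_one, one_mul]
  | cons a l ih =>
    intro u hu hm hl hlu hml hn
    have hau : a ∈ u := hlu a List.mem_cons_self
    rw [List.nodup_cons] at hl
    rw [List.mem_cons, not_or] at hml
    have hma : m ≠ a := hml.1
    have hc := card_split hS hu hau hq
    have hlen : (a :: l).length = l.length + 1 := rfl
    rw [hlen, Nat.mul_add] at hn
    have hq2 := two_le hS hq
    have hql : l.length ≤ q * l.length := Nat.le_mul_of_pos_left _ (by omega)
    obtain ⟨i1, i2⟩ := ih (split u a q) (frame_split hS hu hau hq) (mem_split_of_ne hm hma) hl.2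
      (fun b hb => mem_split_of_ne (hlu b (List.mem_cons_of_mem _ hb)) (by
        rintro rfl
        exact hl.1 hb)) hml.2 (by omega)
    have hcomm := split_comm hS hu hm hau hma hr hq
    have hs := hsq.bot hS hu hm hau hma hr hq (by omega)
    refine ⟨?_, ?_⟩
    · show runV q (split (split u m r) a q) l = split (runV q (split u a q) l) m r
      rw [hcomm, i1]
    · show φ u (split u m r) * (φ (split u m r) (split (split u m r) a q) *
          runH φ q (split (split u m r) a q) l) =
        φ u (split u a q) * runH φ q (split u a q) l *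
          φ (runV q (split u a q) l) (split (runV q (split u a q) l) m r)
      rw [← mul_assoc, hs, hcomm, mul_assoc, i2, mul_assoc]

/-- one side of the diamond over `split u m r` -/
theorem di_push (hS : PS S) {H : Type} [Group H] {φ : V → V → H} {n : ℕ}
    (hsq : SqFlat S φ n) {m : ℤ → ℤ} {r : ℕ} (hr : r ∈ S) {u : V} (hu : Frame S u) (hm : m ∈ u)
    {f : ℤ → ℤ} (hf : f ∈ u) (hmf : m ≠ f) {p q : ℕ} (hp : p ∈ S) (hq : q ∈ S)
    (hn : u.card + r + p * q ≤ n + 2) :
    φ u (split u m r) * (φ (split u m r) (split (split u m r) f p) *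
        runH φ q (split (split u m r) f p) (chl f p)) =
      φ u (split u f p) * runH φ q (split u f p) (chl f p) *
        φ (runV q (split u f p) (chl f p)) (split (runV q (split u f p) (chl f p)) m r) := by
  have hp2 := two_le hS hp
  have hq2 := two_le hS hq
  have hpq : p ≤ p * q := Nat.le_mul_of_pos_right _ (by omega)
  have hs := hsq.bot hS hu hm hf hmf hr hp (by omega)
  have hcomm := split_comm hS hu hm hf hmf hr hp
  have hc := card_split hS hu hf hp
  have hmch : m ∉ chl f p := by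
    intro h
    exact (Finset.disjoint_left.mp (disj_ch hS hu hf hp)) hm (mem_chl.mp h)
  obtain ⟨-, i2⟩ := runH_comm hS hsq (m := m) hr hq (chl f p) (split u f p)
    (frame_split hS hu hf hp) (mem_split_of_ne hm hmf) (nodup_chl (hu.pc f hf).inj p)
    (fun a ha => ch_sub_split (mem_chl.mp ha)) hmch (by
      rw [length_chl, Nat.mul_comm q p]
      omega)
  rw [← mul_assoc, hs, hcomm, mul_assoc, i2, mul_assoc]

/-- **one step of the extension** -/
theorem step (hS : PS S) {H : Type} [Group H] {φ : V → V → H} {n : ℕ}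
    (hn : 4 * mx S + mx S * mx S + 1 ≤ n) (hsq : SqFlat S φ n) (hdi : DiFlat S φ n) :
    ∃ φ' : V → V → H, Agree φ' φ n ∧ SqFlat S φ' (n + 1) ∧ DiFlat S φ' (n + 1) := by
  let φ' : V → V → H := fun v w =>
    if h : Frame S w ∧ w.card = n + 1 then
      (exists_theta hS (φ := φ) (n := n) (by omega) hsq h.1 h.2).choose v
    else φ v w
  have hA : Agree φ' φ n := by
    intro v w hw
    show (if h : Frame S w ∧ w.card = n + 1 then
      (exists_theta hS (φ := φ) (n := n) (by omega) hsq h.1 h.2).choose v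
      else φ v w) = φ v w
    rw [dif_neg]
    intro h
    omega
  have hsq' : SqFlat S φ' (n + 1) := by
    intro w hw hc
    rcases Nat.lt_or_ge n w.card with hlt | hge
    · have hc' : w.card = n + 1 := by omega
      intro f p g q hf hp hfw hg hq hgw hd
      have c1 := card_mrg hS hw hf hp hfw
      have c2 := card_mrg hS hw hg hq hgw
      have p2 := two_le hS hp
      have q2 := two_le hS hq
      rw [hA _ (mrg w f p) (by omega), hA _ (mrg w g q) (by omega)]
      have hval : ∀ v, φ' v w =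
          (exists_theta hS (φ := φ) (n := n) (by omega) hsq hw hc').choose v := by
        intro v
        show (if h : Frame S w ∧ w.card = n + 1 then
          (exists_theta hS (φ := φ) (n := n) (by omega) hsq h.1 h.2).choose v
          else φ v w) = _
        rw [dif_pos ⟨hw, hc'⟩]
      rw [hval, hval]
      exact (exists_theta hS (φ := φ) (n := n) (by omega) hsq hw hc').choose_spec f p g q hf hp hfw
        hg hq hgw hd
    · exact sq_congr hS hA hsq w hw hge
  refine ⟨φ', hA, hsq', ?_⟩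
  intro v f p q hv hf hp hq hpq hc
  rcases Nat.lt_or_ge (n + 1) (v.card + p * q) with hlt | hge
  · -- the top has rank `n + 1`
    have hce : v.card + p * q = n + 2 := by omega
    have hpP := le_mx hp
    have hqP := le_mx hq
    have hpqP : p * q ≤ mx S * mx S := Nat.mul_le_mul hpP hqP
    have hv1 : 1 < (v.erase f).card := by
      rw [Finset.card_erase_of_mem hf]
      have : 2 ≤ mx S := le_mx hS.two
      omega
    obtain ⟨a, ha, b, hb, hab⟩ := Finset.one_lt_card.mp hv1
    rw [Finset.mem_erase] at ha hb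
    obtain ⟨m, hm, hmc⟩ := exists_merge hS hv ha.2 hb.2 hab
    have hsub : ch m 2 ⊆ v := by
      rw [hmc]
      intro c hc
      rw [Finset.mem_insert, Finset.mem_singleton] at hc
      rcases hc with rfl | rfl
      exacts [ha.2, hb.2]
    have hfm : f ∉ ch m 2 := by
      rw [hmc, Finset.mem_insert, Finset.mem_singleton]
      rintro (rfl | rfl)
      exacts [ha.1 rfl, hb.1 rfl]
    set u := mrg v m 2 with hu
    have hvu : split u m 2 = v := split_mrg hS hv hm hS.two hsub
    have huf : Frame S u := frame_mrg hS hv hm hS.two hsub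
    have hmu : m ∈ u := mem_mrg.mpr (Or.inl rfl)
    have hfu : f ∈ u := mem_mrg.mpr (Or.inr ⟨hf, hfm⟩)
    have hmf : m ≠ f := by
      rintro rfl
      exact not_mem_of_ch hS hv hm hS.two hsub hf
    have hcu := card_mrg hS hv hm hS.two hsub
    rw [← hu] at hcu
    have hd := hdi u f p q huf hfu hp hq hpq (by omega)
    rw [← di_side hS hA huf hfu hp hq (by omega),
      ← di_side hS hA huf hfu hq hp (by rw [Nat.mul_comm q p]; omega)] at hd
    have e1 := di_push hS hsq' hS.two huf hmu hfu hmf hp hq (by omega)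
    have e2 := di_push hS hsq' hS.two huf hmu hfu hmf hq hp (by rw [Nat.mul_comm q p]; omega)
    rw [hvu] at e1 e2
    have hT := runV_diamond hS huf hfu hp hq
    rw [hd, hT, ← e2] at e1
    exact mul_left_cancel e1
  · rw [di_side hS hA hv hf hp hq hge, di_side hS hA hv hf hq hp (by rw [Nat.mul_comm q p]; exact hge)]
    exact hdi v f p q hv hf hp hq hpq hge

/-- **piece EXT**: a connection which is flat up to rank `N` extends to a flat connection -/
theorem statExt (hS : PS S) : StatExt S := by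
  refine ⟨4 * mx S + mx S * mx S + 1, ?_⟩
  intro N hN H _ φ hsq hdi
  -- the sequence of extensions
  let T : ℕ → Type := fun k => {ψ : V → V → H // SqFlat S ψ (N + k) ∧ DiFlat S ψ (N + k)}
  have hstep : ∀ k (ψ : T k), ∃ ψ' : T (k + 1), Agree ψ'.1 ψ.1 (N + k) := by
    intro k ψ
    obtain ⟨ψ', h1, h2, h3⟩ := step hS (n := N + k) (by omega) ψ.2.1 ψ.2.2
    exact ⟨⟨ψ', h2, h3⟩, h1⟩
  choose nx hnx using hstep
  let Φ : ∀ k, T k := fun k => Nat.rec (⟨φ, hsq, hdi⟩ : T 0) (fun k ψ => nx k ψ) k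
  have hΦ : ∀ k, Agree (Φ (k + 1)).1 (Φ k).1 (N + k) := fun k => hnx k (Φ k)
  have hmono : ∀ j k, j ≤ k → Agree (Φ k).1 (Φ j).1 (N + j) := by
    intro j k hjk
    induction k, hjk using Nat.le_induction with
    | base => intro v w _; rfl
    | succ k hjk ih =>
      intro v w hw
      rw [hΦ k v w (by omega), ih v w hw]
  let φi : V → V → H := fun v w => (Φ w.card).1 v w
  have hφi : ∀ k, Agree φi (Φ k).1 (N + k) := by
    intro k v w hw
    show (Φ w.card).1 v w = (Φ k).1 v w
    rcases Nat.le_total k w.card with h | h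
    · exact hmono k w.card h v w hw
    · exact (hmono w.card k h v w (by omega)).symm
  refine ⟨φi, fun v w hw => ?_, fun n => ?_, fun n => ?_⟩
  · exact hφi 0 v w hw
  · intro w hw hn
    exact sq_congr hS (hφi n) (Φ n).2.1 w hw (by omega)
  · intro v f p q hv hf hp hq hpq hn
    exact di_congr hS (hφi n) (Φ n).2.2 v f p q hv hf hp hq hpq (by omega)

end Pool.Agent.Run7.h228.CTF
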